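import Mathlib

set_option autoImplicit false

namespace Pool.Agent.Results.MP_118fda_co.AlternatingOrientation

section Defs

variable {V : Type*}

/-- `D` is an orientation of `G`: every edge is directed in exactly one of the two ways. -/
structure IsOrientation (G : SimpleGraph V) (D : V → V → Prop) : Prop where
  adj : ∀ u v, D u v → G.Adj u v
  total : ∀ u v, G.Adj u v → (D u v ↔ ¬ D v u)

/-- `v 0, v 1, …, v (m-1)` is an odd cycle of length `m` of `G`. -/
structure IsOddCycle (G : SimpleGraph V) (m : ℕ) (v : ZMod m → V) : Prop where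
  three_le : 3 ≤ m
  odd : Odd m
  inj : Function.Injective v
  adj : ∀ i, G.Adj (v i) (v (i + 1))

/-- A shortest odd cycle. -/
def IsShortestOddCycle (G : SimpleGraph V) (m : ℕ) (v : ZMod m → V) : Prop :=
  IsOddCycle G m v ∧ ∀ (m' : ℕ) (v' : ZMod m' → V), IsOddCycle G m' v' → m ≤ m'

/-- Both cycle edges at `v i` point away from it. -/
def IsSource (D : V → V → Prop) {m : ℕ} (v : ZMod m → V) (i : ZMod m) : Prop :=
  D (v i) (v (i + 1)) ∧ D (v i) (v (i - 1))

/-- Both cycle edges at `v i` point towards it. -/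
def IsSink (D : V → V → Prop) {m : ℕ} (v : ZMod m → V) (i : ZMod m) : Prop :=
  D (v (i + 1)) (v i) ∧ D (v (i - 1)) (v i)

/-- Every vertex of the cycle, with at most one exception, is a source or a sink. -/
def IsAlternating (D : V → V → Prop) {m : ℕ} (v : ZMod m → V) : Prop :=
  ∀ i j : ZMod m, ¬ IsSource D v i → ¬ IsSink D v i → ¬ IsSource D v j → ¬ IsSink D v j → i = j

/-- Adjacency in the generalized Mycielski graph `M_r(G)`; `some (u, i)` is the vertex
`(u, i + 1)` of level `i + 1` and `none` is the vertex `z`. -/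
def mycAdj (G : SimpleGraph V) (r : ℕ) : Option (V × Fin r) → Option (V × Fin r) → Prop
  | some (u, i), some (v, j) => G.Adj u v ∧
      ((i.val = 0 ∧ j.val = 0) ∨ i.val + 1 = j.val ∨ j.val + 1 = i.val)
  | some (_, i), none => i.val + 1 = r
  | none, some (_, i) => i.val + 1 = r
  | none, none => False

/-- The generalized Mycielski graph `M_r(G)`. -/
def genMycielski (G : SimpleGraph V) (r : ℕ) : SimpleGraph (Option (V × Fin r)) where
  Adj := mycAdj G r
  symm := by
    constructor
    rintro (_ | ⟨u, i⟩) (_ | ⟨v, j⟩) h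
    · exact h
    · exact h
    · exact h
    · obtain ⟨h1, h2⟩ := h
      refine ⟨h1.symm, ?_⟩
      rcases h2 with ⟨h2, h3⟩ | h2 | h2
      · exact Or.inl ⟨h3, h2⟩
      · exact Or.inr (Or.inr h2)
      · exact Or.inr (Or.inl h2)
  loopless := by
    constructor
    rintro (_ | ⟨u, i⟩) h
    · exact h
    · exact G.loopless.irrefl u h.1

end Defs

/-! ### From colourings to orientations -/

section Orient

variable {V : Type*}

lemma orient (G : SimpleGraph V) (c : V → Bool)
    (hc : ∀ (m : ℕ) (v : ZMod m → V), IsShortestOddCycle G m v →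
      ∀ i j, c (v i) = c (v (i + 1)) → c (v j) = c (v (j + 1)) → i = j) :
    ∃ D : V → V → Prop, IsOrientation G D ∧
      ∀ (m : ℕ) (v : ZMod m → V), IsShortestOddCycle G m v → IsAlternating D v := by
  classical
  let D : V → V → Prop := fun u v => G.Adj u v ∧
    ((c u = true ∧ c v = false) ∨ (c u = c v ∧ WellOrderingRel u v))
  have hasymm : ∀ u v : V, WellOrderingRel u v → ¬ WellOrderingRel v u :=
    fun u v => asymm_of WellOrderingRel
  have htri : ∀ u v : V, u ≠ v → ¬ WellOrderingRel u v → WellOrderingRel v u := by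
    intro u v huv h
    rcases trichotomous_of WellOrderingRel u v with h1 | h1 | h1
    · exact absurd h1 h
    · exact absurd h1 huv
    · exact h1
  have htot : ∀ u v, G.Adj u v → (D u v ↔ ¬ D v u) := by
    intro u v huv
    have hvu := huv.symm
    constructor
    · rintro ⟨_, h1⟩ ⟨_, h2⟩
      rcases h1 with ⟨h1, h1'⟩ | ⟨h1, h1'⟩ <;> rcases h2 with ⟨h2, h2'⟩ | ⟨h2, h2'⟩
      · rw [h1] at h2'; exact absurd h2' (by simp)
      · rw [h1, h1'] at h2; exact absurd h2 (by simp)
      · rw [h2, h2'] at h1; exact absurd h1 (by simp)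
      · exact hasymm u v h1' h2'
    · intro h
      refine ⟨huv, ?_⟩
      by_contra hno
      apply h
      refine ⟨hvu, ?_⟩
      cases hu : c u <;> cases hv : c v
      · right
        refine ⟨rfl, ?_⟩
        apply htri u v huv.ne
        intro h3
        exact hno (Or.inr ⟨by rw [hu, hv], h3⟩)
      · left; exact ⟨rfl, rfl⟩
      · exact absurd (Or.inl ⟨hu, hv⟩) hno
      · right
        refine ⟨rfl, ?_⟩
        apply htri u v huv.ne
        intro h3
        exact hno (Or.inr ⟨by rw [hu, hv], h3⟩)
  refine ⟨D, ⟨fun u v h => h.1, htot⟩, ?_⟩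
  intro m v hv
  have hm := hv.1.three_le
  have hM := hc m v hv
  have hadj := hv.1.adj
  have hadj' : ∀ i, G.Adj (v (i - 1)) (v i) := by
    intro i
    have := hadj (i - 1)
    rwa [sub_add_cancel] at this
  have hbi : ∀ u w : V, G.Adj u w → c u = true → c w = false → D u w :=
    fun u w h h1 h2 => ⟨h, Or.inl ⟨h1, h2⟩⟩
  -- an exceptional vertex is an end of a monochromatic edge
  have hexc : ∀ i, ¬ IsSource D v i → ¬ IsSink D v i →
      c (v i) = c (v (i + 1)) ∨ c (v (i - 1)) = c (v i) := by
    intro i h1 h2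
    by_contra hno
    have hno := not_or.mp hno
    cases hi : c (v i)
    · rw [hi] at hno
      have e1 : c (v (i + 1)) = true := by
        cases h : c (v (i + 1))
        · exact absurd h.symm hno.1
        · rfl
      have e2 : c (v (i - 1)) = true := by
        cases h : c (v (i - 1))
        · exact absurd h hno.2
        · rfl
      exact h2 ⟨hbi _ _ (hadj i).symm e1 hi, hbi _ _ (hadj' i) e2 hi⟩
    · rw [hi] at hno
      have e1 : c (v (i + 1)) = false := by
        cases h : c (v (i + 1))
        · rfl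
        · exact absurd h.symm hno.1
      have e2 : c (v (i - 1)) = false := by
        cases h : c (v (i - 1))
        · rfl
        · exact absurd h hno.2
      exact h1 ⟨hbi _ _ (hadj i) hi e1, hbi _ _ (hadj' i).symm hi e2⟩
  have hne1 : ∀ i : ZMod m, i + 1 ≠ i := by
    intro i h
    have h1 : (1 : ZMod m) = 0 := by
      have := congrArg (fun x => x - i) h
      simpa using this
    have h2 : ((1 : ℕ) : ZMod m) = 0 := by simpa using h1
    rw [ZMod.natCast_eq_zero_iff] at h2
    have := Nat.le_of_dvd one_pos h2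
    omega
  -- the two ends of a monochromatic edge are not both exceptional
  have hboth : ∀ p, c (v p) = c (v (p + 1)) → ¬ IsSource D v p → ¬ IsSink D v p →
      ¬ IsSource D v (p + 1) → ¬ IsSink D v (p + 1) → False := by
    intro p hp h1 h2 h3 h4
    have hprev : c (v (p - 1)) ≠ c (v p) := by
      intro h
      have h5 : c (v (p - 1)) = c (v (p - 1 + 1)) := by rw [sub_add_cancel]; exact h
      have := hM (p - 1) p h5 hp
      exact hne1 (p - 1) (by rw [sub_add_cancel]; exact this.symm)
    have hnext : c (v (p + 1)) ≠ c (v (p + 1 + 1)) := by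
      intro h
      exact hne1 p (hM p (p + 1) hp h).symm
    have hpp : v (p + 1 - 1) = v p := by rw [add_sub_cancel_right]
    cases hi : c (v p)
    · have e0 : c (v (p + 1)) = false := by rw [← hp]; exact hi
      have e1 : c (v (p - 1)) = true := by
        cases h : c (v (p - 1))
        · exact absurd (h.trans hi.symm) hprev
        · rfl
      have e2 : c (v (p + 1 + 1)) = true := by
        cases h : c (v (p + 1 + 1))
        · exact absurd (e0.trans h.symm) hnext
        · rfl
      by_cases hD : D (v p) (v (p + 1))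
      · refine h4 ⟨hbi _ _ (hadj (p + 1)).symm e2 e0, ?_⟩
        rw [hpp]; exact hD
      · have hD' : D (v (p + 1)) (v p) := by
          by_contra h
          exact hD ((htot _ _ (hadj p)).mpr h)
        exact h2 ⟨hD', hbi _ _ (hadj' p) e1 hi⟩
    · have e0 : c (v (p + 1)) = true := by rw [← hp]; exact hi
      have e1 : c (v (p - 1)) = false := by
        cases h : c (v (p - 1))
        · rfl
        · exact absurd (h.trans hi.symm) hprev
      have e2 : c (v (p + 1 + 1)) = false := by
        cases h : c (v (p + 1 + 1))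
        · rfl
        · exact absurd (e0.trans h.symm) hnext
      by_cases hD : D (v p) (v (p + 1))
      · exact h1 ⟨hD, hbi _ _ (hadj' p).symm hi e1⟩
      · have hD' : D (v (p + 1)) (v p) := by
          by_contra h
          exact hD ((htot _ _ (hadj p)).mpr h)
        refine h3 ⟨hbi _ _ (hadj (p + 1)) e0 e2, ?_⟩
        rw [hpp]; exact hD'
  intro i j hi1 hi2 hj1 hj2
  rcases hexc i hi1 hi2 with hi | hi <;> rcases hexc j hj1 hj2 with hj | hj
  · exact hM i j hi hj
  · exfalso
    have hj' : c (v (j - 1)) = c (v (j - 1 + 1)) := by rw [sub_add_cancel]; exact hj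
    have := hM i (j - 1) hi hj'
    subst this
    exact hboth (j - 1) hi hi1 hi2 (by rw [sub_add_cancel]; exact hj1)
      (by rw [sub_add_cancel]; exact hj2)
  · exfalso
    have hi' : c (v (i - 1)) = c (v (i - 1 + 1)) := by rw [sub_add_cancel]; exact hi
    have := hM j (i - 1) hj hi'
    subst this
    exact hboth (i - 1) hj hj1 hj2 (by rw [sub_add_cancel]; exact hi1)
      (by rw [sub_add_cancel]; exact hi2)
  · have hi' : c (v (i - 1)) = c (v (i - 1 + 1)) := by rw [sub_add_cancel]; exact hi
    have hj' : c (v (j - 1)) = c (v (j - 1 + 1)) := by rw [sub_add_cancel]; exact hj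
    have := hM (i - 1) (j - 1) hi' hj'
    have := congrArg (fun x => x + 1) this
    simpa using this

end Orient

/-! ### Arithmetic -/

/-- colour number -/
def colN (a j : ℕ) : ℕ := if a ≤ j then a + 1 else j

lemma arithA {k r : ℕ} (hrk : r ≤ k) (hr : 1 ≤ r) (A c : ℕ → ℕ)
    (hc0 : c 0 = 1) (hci : ∀ i, 1 ≤ i → i ≤ r → c i = colN (A i) (i - 1))
    (hcr : c (r + 1) = colN (A (r + 1)) (r - 1))
    (hstep : ∀ i, 1 ≤ i → i ≤ r →
      A (i + 1) = A i + 1 ∨ A i = A (i + 1) + 1 ∨ (A i = k ∧ A (i + 1) = k)) :
    ∀ p p', p < p' → p' ≤ r → c p % 2 = c (p + 1) % 2 → c p' % 2 = c (p' + 1) % 2 → False := by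
  intro p p' hpp hp' h1 h2
  have hA : A (p + 1) ≤ p := by
    have e2 := hci (p + 1) (by omega) (by omega)
    rw [Nat.add_sub_cancel] at e2
    rcases Nat.eq_zero_or_pos p with rfl | hp
    · rw [hc0, e2] at h1
      unfold colN at h1
      split_ifs at h1 with h3
      exact h3
    · have e1 := hci p hp (by omega)
      have e3 := hstep p hp (by omega)
      rw [e1, e2] at h1
      unfold colN at h1
      split_ifs at h1 <;> omega
  have hinv : ∀ i, p + 1 ≤ i → i ≤ r → A i ≤ i - 1 := by
    intro i hi
    induction i, hi using Nat.le_induction with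
    | base => intro _; simpa using hA
    | succ i hi ih =>
      intro hir
      have := ih (by omega)
      have e3 := hstep i (by omega) (by omega)
      omega
  have h3 := hinv p' (by omega) hp'
  have e1 := hci p' (by omega) hp'
  have e3 := hstep p' (by omega) hp'
  rcases Nat.lt_or_ge p' r with h4 | h4
  · have e2 := hci (p' + 1) (by omega) (by omega)
    rw [e1, e2] at h2
    unfold colN at h2
    split_ifs at h2 <;> omega
  · have h5 : p' = r := by omega
    subst h5
    rw [e1, hcr] at h2
    unfold colN at h2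
    split_ifs at h2 <;> omega

lemma arithB {k r : ℕ} (hkr : k ≤ r) (J c : ℕ → ℕ)
    (hc : ∀ i ≤ k, c i = colN i (J i)) (hck : c (k + 1) = colN k (J (k + 1)))
    (hstep : ∀ i ≤ k, J (i + 1) = J i + 1 ∨ J i = J (i + 1) + 1 ∨
      (J i + 1 = r ∧ J (i + 1) + 1 = r)) :
    ∀ p p', p < p' → p' ≤ k → c p % 2 = c (p + 1) % 2 → c p' % 2 = c (p' + 1) % 2 → False := by
  intro p p' hpp hp' h1 h2
  have hJ : J (p + 1) + 2 ≤ p + 1 := by
    rw [hc p (by omega), hc (p + 1) (by omega)] at h1
    have e3 := hstep p (by omega)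
    unfold colN at h1
    split_ifs at h1 <;> omega
  have hinv : ∀ i, p + 1 ≤ i → i ≤ k → J i + 2 ≤ i := by
    intro i hi
    induction i, hi using Nat.le_induction with
    | base => intro _; exact hJ
    | succ i hi ih =>
      intro hik
      have := ih (by omega)
      have e3 := hstep i (by omega)
      omega
  have h3 := hinv p' (by omega) hp'
  have e3 := hstep p' hp'
  rcases Nat.lt_or_ge p' k with h4 | h4
  · rw [hc p' hp', hc (p' + 1) (by omega)] at h2
    unfold colN at h2
    split_ifs at h2 <;> omega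
  · have h5 : p' = k := by omega
    subst h5
    rw [hc p' le_rfl, hck] at h2
    unfold colN at h2
    split_ifs at h2 <;> omega

lemma arithJ {m r : ℕ} (J : ℕ → ℕ) (hm : Odd m) (hm3 : 3 ≤ m) (h1 : J 1 = 0)
    (hlast : J (m - 1) = 0)
    (hstep : ∀ i, 1 ≤ i → i + 1 ≤ m - 1 → J (i + 1) = J i + 1 ∨ J i = J (i + 1) + 1 ∨
      (J i + 1 = r ∧ J (i + 1) + 1 = r)) (hmr : m ≤ 2 * r + 1) :
    m = 2 * r + 1 ∧ (∀ i, 1 ≤ i → i ≤ r → J i = i - 1) ∧ J (r + 1) = r - 1 := by
  have hup : ∀ i, 1 ≤ i → i ≤ m - 1 → J i ≤ i - 1 := by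
    intro i hi
    induction i, hi using Nat.le_induction with
    | base => intro _; omega
    | succ i hi ih =>
      intro him
      have := ih (by omega)
      have e := hstep i hi him
      omega
  have hdown : ∀ d, d ≤ m - 2 → J (m - 1 - d) ≤ d := by
    intro d
    induction d with
    | zero => intro _; simp [hlast]
    | succ d ih =>
      intro hd
      have := ih (by omega)
      have e := hstep (m - 1 - (d + 1)) (by omega) (by omega)
      rw [show m - 1 - (d + 1) + 1 = m - 1 - d by omega] at e
      omega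
  obtain ⟨i, hi1, hi2, hi3, hi4⟩ : ∃ i, 1 ≤ i ∧ i + 1 ≤ m - 1 ∧ J i + 1 = r ∧
      J (i + 1) + 1 = r := by
    by_contra hno
    have hpar : ∀ i, 1 ≤ i → i ≤ m - 1 → J i % 2 = (i - 1) % 2 := by
      intro i hi
      induction i, hi using Nat.le_induction with
      | base => intro _; omega
      | succ i hi ih =>
        intro him
        have := ih (by omega)
        have e := hstep i hi him
        rcases e with e | e | e
        · omega
        · omega
        · exact absurd ⟨i, hi, him, e⟩ hno
    have := hpar (m - 1) (by omega) le_rfl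
    obtain ⟨t, ht⟩ := hm
    omega
  have e1 := hup i hi1 (by omega)
  have e2 := hdown (m - 1 - (i + 1)) (by omega)
  rw [show m - 1 - (m - 1 - (i + 1)) = i + 1 by omega] at e2
  have hmm : m = 2 * r + 1 := by omega
  have hir : i = r := by omega
  subst hir
  refine ⟨hmm, ?_, by omega⟩
  intro j hj1 hj2
  have hlow : ∀ d, d ≤ i - 1 → i - 1 - d ≤ J (i - d) := by
    intro d
    induction d with
    | zero => intro _; simp; omega
    | succ d ih =>
      intro hd
      have := ih (by omega)
      have e := hstep (i - (d + 1)) (by omega) (by omega)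
      rw [show i - (d + 1) + 1 = i - d by omega] at e
      omega
  have e3 := hlow (i - j) (by omega)
  rw [show i - (i - j) = j by omega] at e3
  have e4 := hup j hj1 (by omega)
  omega

lemma parity (c : ℕ → ℕ) (m : ℕ) :
    (Even ((Finset.range m).filter (fun p => ¬ c p % 2 = c (p + 1) % 2)).card ↔
      c m % 2 = c 0 % 2) := by
  induction m with
  | zero => simp
  | succ m ih =>
    rw [Finset.range_add_one, Finset.filter_insert]
    by_cases h : c m % 2 = c (m + 1) % 2
    · rw [if_neg (by simpa using h), ih, h]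
    · rw [if_pos h, Finset.card_insert_of_notMem (by simp), Nat.even_add_one, ih]
      omega

lemma halves {h : ℕ} (c : ℕ → ℕ) (hcl : c (2 * h + 1) = c 0)
    (H1 : ∀ p p', p < p' → p' ≤ h → c p % 2 = c (p + 1) % 2 → c p' % 2 = c (p' + 1) % 2 → False)
    (H2 : ∀ p p', p < p' → p' ≤ h →
      c (2 * h + 1 - p) % 2 = c (2 * h + 1 - (p + 1)) % 2 →
      c (2 * h + 1 - p') % 2 = c (2 * h + 1 - (p' + 1)) % 2 → False) :
    ∀ p p', p < 2 * h + 1 → p' < 2 * h + 1 → c p % 2 = c (p + 1) % 2 →
      c p' % 2 = c (p' + 1) % 2 → p = p' := by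
  classical
  set M := (Finset.range (2 * h + 1)).filter (fun p => c p % 2 = c (p + 1) % 2) with hM
  have hpar := (parity c (2 * h + 1)).mpr (by rw [hcl])
  have hsum := Finset.card_filter_add_card_filter_not (s := Finset.range (2 * h + 1))
    (fun p => c p % 2 = c (p + 1) % 2)
  rw [Finset.card_range] at hsum
  have hodd : Odd M.card := by
    rcases Nat.even_or_odd M.card with he | ho
    · exfalso
      have := he.add hpar
      rw [hM, hsum] at this
      exact (Nat.not_even_iff_odd.mpr ⟨h, rfl⟩) this
    · exact ho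
  have hlow : (M.filter (fun p => p ≤ h)).card ≤ 1 := by
    rw [Finset.card_le_one]
    intro a ha b hb
    have ha' := Finset.mem_filter.mp ha
    have hb' := Finset.mem_filter.mp hb
    have ha2 := (Finset.mem_filter.mp ha'.1).2
    have hb2 := (Finset.mem_filter.mp hb'.1).2
    rcases Nat.lt_trichotomy a b with hab | hab | hab
    · exact absurd (H1 a b hab hb'.2 ha2 hb2) id
    · exact hab
    · exact absurd (H1 b a hab ha'.2 hb2 ha2) id
  have hhigh : (M.filter (fun p => h ≤ p)).card ≤ 1 := by
    rw [Finset.card_le_one]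
    have key : ∀ a b, a < b → h ≤ a → b < 2 * h + 1 → c a % 2 = c (a + 1) % 2 →
        c b % 2 = c (b + 1) % 2 → False := by
      intro a b hab ha hb ha2 hb2
      refine H2 (2 * h - b) (2 * h - a) (by omega) (by omega) ?_ ?_
      · rw [show 2 * h + 1 - (2 * h - b) = b + 1 by omega,
          show 2 * h + 1 - (2 * h - b + 1) = b by omega]
        exact hb2.symm
      · rw [show 2 * h + 1 - (2 * h - a) = a + 1 by omega,
          show 2 * h + 1 - (2 * h - a + 1) = a by omega]
        exact ha2.symm
    intro a ha b hb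
    have ha' := Finset.mem_filter.mp ha
    have hb' := Finset.mem_filter.mp hb
    have ha2 := (Finset.mem_filter.mp ha'.1)
    have hb2 := (Finset.mem_filter.mp hb'.1)
    rcases Nat.lt_trichotomy a b with hab | hab | hab
    · exact absurd (key a b hab ha'.2 (Finset.mem_range.mp hb2.1) ha2.2 hb2.2) id
    · exact hab
    · exact absurd (key b a hab hb'.2 (Finset.mem_range.mp ha2.1) hb2.2 ha2.2) id
  have hle : M.card ≤ (M.filter (fun p => p ≤ h)).card + (M.filter (fun p => h ≤ p)).card := by
    refine le_trans (Finset.card_le_card ?_) (Finset.card_union_le _ _)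
    intro p hp
    rcases le_total p h with h1 | h1
    · exact Finset.mem_union_left _ (Finset.mem_filter.mpr ⟨hp, h1⟩)
    · exact Finset.mem_union_right _ (Finset.mem_filter.mpr ⟨hp, h1⟩)
  have hone : M.card ≤ 1 := by
    obtain ⟨t, ht⟩ := hodd
    omega
  intro p p' hp hp' h1 h2
  exact Finset.card_le_one.mp hone p (Finset.mem_filter.mpr ⟨Finset.mem_range.mpr hp, h1⟩) p'
    (Finset.mem_filter.mpr ⟨Finset.mem_range.mpr hp', h2⟩)

lemma winding {n m : ℕ} (hn : 0 < n) (x : ℕ → ZMod n)
    (hstep : ∀ i < m, x (i + 1) = x i + 1 ∨ x (i + 1) = x i - 1) (hcl : x m = x 0)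
    (hm : Odd m) (hmn : m ≤ n) :
    m = n ∧ ((∀ i ≤ m, x i = x 0 + i) ∨ (∀ i ≤ m, x i = x 0 - i)) := by
  classical
  let s : ℕ → ℤ := fun i => Nat.rec 0 (fun j t => if x (j + 1) = x j + 1 then t + 1 else t - 1) i
  have hs0 : s 0 = 0 := rfl
  have hs1 : ∀ i, s (i + 1) = if x (i + 1) = x i + 1 then s i + 1 else s i - 1 := fun i => rfl
  have hsx : ∀ i ≤ m, x i = x 0 + (Int.cast (s i) : ZMod n) := by
    intro i
    induction i with
    | zero => intro _; simp [hs0]
    | succ i ih =>
      intro hi
      have h1 := ih (by omega)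
      rw [hs1]
      split_ifs with h
      · rw [h, h1]; push_cast; ring
      · rcases hstep i (by omega) with h2 | h2
        · exact absurd h2 h
        · rw [h2, h1]; push_cast; ring
  have hbd : ∀ i j, i ≤ j → |s j - s i| ≤ (j : ℤ) - i := by
    intro i j hij
    induction j, hij using Nat.le_induction with
    | base => simp
    | succ j hj ih =>
      rw [hs1]
      rw [abs_le] at ih ⊢
      split_ifs <;> push_cast <;> constructor <;> omega
  have hpar : ∀ i, (s i) % 2 = (i : ℤ) % 2 := by
    intro i
    induction i with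
    | zero => simp [hs0]
    | succ i ih =>
      rw [hs1]
      split_ifs <;> push_cast <;> omega
  have hdvd : (n : ℤ) ∣ s m := by
    have := hsx m le_rfl
    rw [hcl] at this
    have h2 : (Int.cast (s m) : ZMod n) = 0 := by
      have h3 := congrArg (fun y => y - x 0) this
      simpa using h3.symm
    haveI : NeZero n := ⟨hn.ne'⟩
    exact (ZMod.intCast_zmod_eq_zero_iff_dvd (s m) n).mp h2
  obtain ⟨q, hq⟩ := hdvd
  obtain ⟨t, ht⟩ := hm
  have hpm := hpar m
  have hbm := hbd 0 m (Nat.zero_le _)
  rw [hs0, abs_le] at hbm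
  have hq1 : q = 1 ∨ q = -1 := by
    have hn' : (0 : ℤ) < n := by exact_mod_cast hn
    have hmn' : (m : ℤ) ≤ n := by exact_mod_cast hmn
    have h1 : q ≤ 1 := by
      by_contra hlt
      have : 2 ≤ q := by omega
      nlinarith
    have h2 : -1 ≤ q := by
      by_contra hlt
      have : q ≤ -2 := by omega
      nlinarith
    have h3 : q ≠ 0 := by
      rintro rfl
      rw [mul_zero] at hq
      rw [hq] at hpm
      omega
    omega
  have hmn' : m = n := by
    rcases hq1 with rfl | rfl
    · rw [mul_one] at hq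
      have : (n : ℤ) ≤ m := by rw [← hq]; simpa using hbm.2
      omega
    · rw [mul_neg_one] at hq
      have : (n : ℤ) ≤ m := by
        have := hbm.1
        simp at this
        omega
      omega
  refine ⟨hmn', ?_⟩
  rcases hq1 with rfl | rfl
  · left
    intro i hi
    have h1 := hbd 0 i (Nat.zero_le _)
    have h2 := hbd i m hi
    rw [abs_le] at h1 h2
    have : s i = i := by
      rw [hs0] at h1
      rw [hq] at h2
      push_cast at h1
      subst hmn'
      omega
    rw [hsx i hi, this]; push_cast; ring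
  · right
    intro i hi
    have h1 := hbd 0 i (Nat.zero_le _)
    have h2 := hbd i m hi
    rw [abs_le] at h1 h2
    have : s i = -i := by
      rw [hs0] at h1
      rw [hq] at h2
      push_cast at h1
      subst hmn'
      omega
    rw [hsx i hi, this]; push_cast; ring

/-! ### The colouring of `M_r(C_{2k+1})` -/

section Colour

variable {k r : ℕ}

/-- distance of the column from column `0` -/
def colA : Option (Fin (2 * k + 1) × Fin r) → ℕ
  | some (u, _) => if u.val ≤ k then u.val else 2 * k + 1 - u.val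
  | none => 0

/-- depth below the top level -/
def depth : Option (Fin (2 * k + 1) × Fin r) → ℕ
  | some (_, l) => r - 1 - l.val
  | none => 0

/-- the colour number -/
def cN : Option (Fin (2 * k + 1) × Fin r) → ℕ
  | some x => colN (colA (some x)) (depth (some x))
  | none => 1

/-- column in `ZMod` -/
def colZ : Option (Fin (2 * k + 1) × Fin r) → ZMod (2 * k + 1)
  | some (u, _) => (u.val : ZMod (2 * k + 1))
  | none => 0

lemma cycle_step {u v : Fin (2 * k + 1)} (h : (SimpleGraph.cycleGraph (2 * k + 1)).Adj u v) :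
    v.val = (u.val + 1) % (2 * k + 1) ∨ u.val = (v.val + 1) % (2 * k + 1) := by
  rw [SimpleGraph.cycleGraph_adj'] at h
  have key : ∀ a b : Fin (2 * k + 1), (a - b).val = 1 → a.val = (b.val + 1) % (2 * k + 1) := by
    intro a b hab
    have h1 : a = (a - b) + b := by rw [sub_add_cancel]
    have h2 := congrArg Fin.val h1
    rw [Fin.val_add, hab] at h2
    rw [h2, Nat.add_comm b.val 1]
  rcases h with h | h
  · right; exact key _ _ h
  · left; exact key _ _ h

lemma adj_col {x y : Option (Fin (2 * k + 1) × Fin r)} (hx : x ≠ none) (hy : y ≠ none)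
    (h : (genMycielski (SimpleGraph.cycleGraph (2 * k + 1)) r).Adj x y) :
    (colA y = colA x + 1 ∨ colA x = colA y + 1 ∨ (colA x = k ∧ colA y = k)) ∧
    (depth y = depth x + 1 ∨ depth x = depth y + 1 ∨ (depth x + 1 = r ∧ depth y + 1 = r)) ∧
    (colZ y = colZ x + 1 ∨ colZ y = colZ x - 1) := by
  rcases x with _ | ⟨u, i⟩
  · exact absurd rfl hx
  rcases y with _ | ⟨v, j⟩
  · exact absurd rfl hy
  obtain ⟨h1, h2⟩ := h
  have hu := u.2
  have hv := v.2
  have hi := i.2
  have hj := j.2
  have h3 := cycle_step h1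
  refine ⟨?_, ?_, ?_⟩
  · simp only [colA]
    have e1 : (u.val + 1) % (2 * k + 1) = if u.val = 2 * k then 0 else u.val + 1 := by
      split_ifs with h
      · rw [h, Nat.mod_self]
      · exact Nat.mod_eq_of_lt (by omega)
    have e2 : (v.val + 1) % (2 * k + 1) = if v.val = 2 * k then 0 else v.val + 1 := by
      split_ifs with h
      · rw [h, Nat.mod_self]
      · exact Nat.mod_eq_of_lt (by omega)
    rw [e1, e2] at h3
    rcases h3 with h3 | h3 <;> split_ifs at h3 <;> split_ifs <;> omega
  · simp only [depth]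
    omega
  · simp only [colZ]
    rcases h3 with h3 | h3
    · left
      rw [h3, ZMod.natCast_mod]; push_cast; ring
    · right
      rw [h3, ZMod.natCast_mod]; push_cast; ring

lemma adj_none {y : Option (Fin (2 * k + 1) × Fin r)}
    (h : (genMycielski (SimpleGraph.cycleGraph (2 * k + 1)) r).Adj none y) : depth y = 0 := by
  rcases y with _ | ⟨v, j⟩
  · exact absurd h id
  · have h1 : j.val + 1 = r := h
    simp only [depth]
    omega

lemma cN_eq {x : Option (Fin (2 * k + 1) × Fin r)} (hx : x ≠ none) :
    cN x = colN (colA x) (depth x) := by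
  rcases x with _ | ⟨u, i⟩
  · exact absurd rfl hx
  · rfl

lemma colA_of_pos {x : Option (Fin (2 * k + 1) × Fin r)} (hx : x ≠ none) {i : ℕ}
    (hi : i ≤ k + 1) (hk : 1 ≤ k) (h : colZ x = i ∨ colZ x = - (i : ZMod (2 * k + 1))) :
    colA x = if i ≤ k then i else k := by
  rcases x with _ | ⟨u, l⟩
  · exact absurd rfl hx
  simp only [colA, colZ] at h ⊢
  have hu := u.2
  rcases h with h | h
  · have h1 : u.val = i := by
      rw [ZMod.natCast_eq_natCast_iff', Nat.mod_eq_of_lt hu, Nat.mod_eq_of_lt (by omega)] at h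
      exact h
    rw [h1]
    split_ifs <;> omega
  · have h1 : ((u.val + i : ℕ) : ZMod (2 * k + 1)) = 0 := by
      push_cast; rw [h]; ring
    rw [ZMod.natCast_eq_zero_iff] at h1
    obtain ⟨q, hq⟩ := h1
    have hq2 : q = 0 ∨ q = 1 := by
      have : q < 2 := by
        by_contra hlt
        have : 2 ≤ q := by omega
        have : (2 * k + 1) * 2 ≤ (2 * k + 1) * q := Nat.mul_le_mul_left _ this
        omega
      omega
    rcases hq2 with rfl | rfl
    · split_ifs <;> omega
    · split_ifs <;> omega

end Colour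

/-! ### Short odd cycles exist -/

lemma zmod_val_add_one {m : ℕ} (hm : 3 ≤ m) (i : ZMod m) :
    (i + 1).val = if i.val + 1 = m then 0 else i.val + 1 := by
  have : NeZero m := ⟨by omega⟩
  have : Fact (1 < m) := ⟨by omega⟩
  rw [ZMod.val_add, ZMod.val_one]
  have := ZMod.val_lt i
  split_ifs with h
  · rw [h, Nat.mod_self]
  · exact Nat.mod_eq_of_lt (by omega)

lemma cycle_adj_of {k : ℕ} (hk : 1 ≤ k) {u v : Fin (2 * k + 1)}
    (h : v.val = if u.val + 1 = 2 * k + 1 then 0 else u.val + 1) :
    (SimpleGraph.cycleGraph (2 * k + 1)).Adj u v := by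
  rw [SimpleGraph.cycleGraph_adj']
  right
  have hu := u.2
  have hv := v.2
  split_ifs at h with h1
  · have h2 : v < u := by rw [Fin.lt_def]; omega
    rw [Fin.coe_sub_iff_lt.mpr h2]
    omega
  · have h2 : u ≤ v := by rw [Fin.le_def]; omega
    rw [Fin.coe_sub_iff_le.mpr h2]
    omega

lemma base_cycle {k r : ℕ} (hk : 1 ≤ k) (hr : 1 ≤ r) :
    ∃ v : ZMod (2 * k + 1) → Option (Fin (2 * k + 1) × Fin r),
      IsOddCycle (genMycielski (SimpleGraph.cycleGraph (2 * k + 1)) r) (2 * k + 1) v := by
  refine ⟨fun i => some (⟨i.val, ZMod.val_lt i⟩, ⟨0, hr⟩), by omega, ⟨k, rfl⟩, ?_, ?_⟩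
  · intro i j h
    simp only [Option.some.injEq, Prod.mk.injEq, Fin.mk.injEq, and_true] at h
    exact ZMod.val_injective _ h
  · intro i
    refine ⟨?_, Or.inl ⟨rfl, rfl⟩⟩
    apply cycle_adj_of hk
    exact zmod_val_add_one (by omega) i

lemma apex_cycle {k r : ℕ} (hk : 1 ≤ k) (hr : 1 ≤ r) :
    ∃ v : ZMod (2 * r + 1) → Option (Fin (2 * k + 1) × Fin r),
      IsOddCycle (genMycielski (SimpleGraph.cycleGraph (2 * k + 1)) r) (2 * r + 1) v := by
  have hlev : ∀ t : ℕ, t < 2 * r + 1 → t ≠ 0 → (if t ≤ r then r - t else t - r - 1) < r := by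
    intro t ht h0
    split_ifs <;> omega
  let v : ZMod (2 * r + 1) → Option (Fin (2 * k + 1) × Fin r) := fun i =>
    if h : i.val = 0 then none
    else some (⟨i.val % 2, by omega⟩,
      ⟨if i.val ≤ r then r - i.val else i.val - r - 1, hlev i.val (ZMod.val_lt i) h⟩)
  have hv0 : ∀ i : ZMod (2 * r + 1), i.val = 0 → v i = none := fun i h => dif_pos h
  have hv1 : ∀ i : ZMod (2 * r + 1), ∀ h : i.val ≠ 0, v i = some (⟨i.val % 2, by omega⟩,
      ⟨if i.val ≤ r then r - i.val else i.val - r - 1, hlev i.val (ZMod.val_lt i) h⟩) :=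
    fun i h => dif_neg h
  refine ⟨v, by omega, ⟨r, rfl⟩, ?_, ?_⟩
  · intro i j h
    apply ZMod.val_injective
    have hi := ZMod.val_lt i
    have hj := ZMod.val_lt j
    by_cases h1 : i.val = 0 <;> by_cases h2 : j.val = 0
    · rw [h1, h2]
    · rw [hv0 i h1, hv1 j h2] at h
      exact absurd h (by simp)
    · rw [hv1 i h1, hv0 j h2] at h
      exact absurd h (by simp)
    · rw [hv1 i h1, hv1 j h2] at h
      simp only [Option.some.injEq, Prod.mk.injEq, Fin.mk.injEq] at h
      obtain ⟨h3, h4⟩ := h
      split_ifs at h4 <;> omega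
  · intro i
    have hi := ZMod.val_lt i
    have hs := zmod_val_add_one (m := 2 * r + 1) (by omega) i
    by_cases h1 : i.val = 0
    · have h2 : (i + 1).val = 1 := by rw [hs, h1]; split_ifs <;> omega
      rw [hv0 i h1, hv1 (i + 1) (by omega)]
      show (if (i + 1).val ≤ r then r - (i + 1).val else (i + 1).val - r - 1) + 1 = r
      rw [h2]
      split_ifs <;> omega
    · by_cases h2 : i.val + 1 = 2 * r + 1
      · rw [if_pos h2] at hs
        rw [hv1 i h1, hv0 (i + 1) hs]
        show (if i.val ≤ r then r - i.val else i.val - r - 1) + 1 = r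
        split_ifs <;> omega
      · rw [if_neg h2] at hs
        rw [hv1 i h1, hv1 (i + 1) (by omega)]
        refine ⟨?_, ?_⟩
        · rcases Nat.mod_two_eq_zero_or_one i.val with h3 | h3
          · apply cycle_adj_of hk
            show (i + 1).val % 2 = if i.val % 2 + 1 = 2 * k + 1 then 0 else i.val % 2 + 1
            rw [hs, h3, if_neg (by omega)]
            omega
          · apply SimpleGraph.Adj.symm
            apply cycle_adj_of hk
            show i.val % 2 = if (i + 1).val % 2 + 1 = 2 * k + 1 then 0 else (i + 1).val % 2 + 1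
            rw [hs, h3]
            split_ifs <;> omega
        · show ((if i.val ≤ r then r - i.val else i.val - r - 1) = 0 ∧
            (if (i + 1).val ≤ r then r - (i + 1).val else (i + 1).val - r - 1) = 0) ∨
            (if i.val ≤ r then r - i.val else i.val - r - 1) + 1 =
            (if (i + 1).val ≤ r then r - (i + 1).val else (i + 1).val - r - 1) ∨
            (if (i + 1).val ≤ r then r - (i + 1).val else (i + 1).val - r - 1) + 1 =
            (if i.val ≤ r then r - i.val else i.val - r - 1)
          rw [hs]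
          split_ifs <;> omega

/-! ### Shortest odd cycles have exactly one monochromatic edge -/

lemma reduce {V : Type*} {m : ℕ} (hm : 0 < m) (v : ZMod m → V) (f : V → ℕ) (i0 : ZMod m)
    (h : ∀ p p' : ℕ, p < m → p' < m →
      f (v (i0 + (p : ℕ))) % 2 = f (v (i0 + ((p + 1 : ℕ) : ZMod m))) % 2 →
      f (v (i0 + (p' : ℕ))) % 2 = f (v (i0 + ((p' + 1 : ℕ) : ZMod m))) % 2 → p = p') :
    ∀ x y : ZMod m, f (v x) % 2 = f (v (x + 1)) % 2 → f (v y) % 2 = f (v (y + 1)) % 2 →
      x = y := by
  have : NeZero m := ⟨hm.ne'⟩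
  have key : ∀ x : ZMod m, i0 + (((x - i0).val : ℕ) : ZMod m) = x := by
    intro x; rw [ZMod.natCast_zmod_val]; ring
  have key2 : ∀ x : ZMod m, i0 + (((x - i0).val + 1 : ℕ) : ZMod m) = x + 1 := by
    intro x; push_cast; rw [ZMod.natCast_zmod_val]; ring
  intro x y hx hy
  have := h (x - i0).val (y - i0).val (ZMod.val_lt _) (ZMod.val_lt _)
    (by rw [key, key2]; exact hx) (by rw [key, key2]; exact hy)
  rw [← key x, ← key y, this]

lemma mono_unique {k r : ℕ} (hk : 1 ≤ k) (hr : 1 ≤ r) {m : ℕ}
    {v : ZMod m → Option (Fin (2 * k + 1) × Fin r)}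
    (hv : IsShortestOddCycle (genMycielski (SimpleGraph.cycleGraph (2 * k + 1)) r) m v) :
    ∀ x y : ZMod m, cN (v x) % 2 = cN (v (x + 1)) % 2 → cN (v y) % 2 = cN (v (y + 1)) % 2 →
      x = y := by
  have hm1 : m ≤ 2 * k + 1 := by
    obtain ⟨b, hb⟩ := base_cycle (k := k) (r := r) hk hr
    exact hv.2 _ b hb
  have hm2 : m ≤ 2 * r + 1 := by
    obtain ⟨b, hb⟩ := apex_cycle (k := k) (r := r) hk hr
    exact hv.2 _ b hb
  have hm3 := hv.1.three_le
  have hmodd := hv.1.odd
  have : NeZero m := ⟨by omega⟩
  have hadj : ∀ (i0 : ZMod m) (i : ℕ),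
      (genMycielski (SimpleGraph.cycleGraph (2 * k + 1)) r).Adj (v (i0 + (i : ℕ)))
        (v (i0 + ((i + 1 : ℕ) : ZMod m))) := by
    intro i0 i
    have := hv.1.adj (i0 + (i : ℕ))
    rw [show i0 + ((i + 1 : ℕ) : ZMod m) = i0 + (i : ℕ) + 1 by push_cast; ring]
    exact this
  by_cases hz : ∃ i0, v i0 = none
  · obtain ⟨i0, hi0⟩ := hz
    apply reduce (by omega) v cN i0
    set w : ℕ → Option (Fin (2 * k + 1) × Fin r) := fun i => v (i0 + (i : ℕ)) with hw
    have hwadj : ∀ i, (genMycielski (SimpleGraph.cycleGraph (2 * k + 1)) r).Adj (w i) (w (i + 1)) :=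
      fun i => hadj i0 i
    have hw0 : w 0 = none := by simp [hw, hi0]
    have hwm : w m = none := by simp [hw, hi0]
    have hwne : ∀ i, 0 < i → i < m → w i ≠ none := by
      intro i h1 h2 h3
      have h4 : v (i0 + (i : ℕ)) = v i0 := by rw [hi0]; exact h3
      have h5 := hv.1.inj h4
      have h6 : ((i : ℕ) : ZMod m) = 0 := by
        have := congrArg (fun y => y - i0) h5
        simpa using this
      rw [ZMod.natCast_eq_zero_iff] at h6
      have := Nat.le_of_dvd h1 h6
      omega
    have hJ1 : depth (w 1) = 0 := by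
      have := hwadj 0
      rw [hw0] at this
      exact adj_none this
    have hJm : depth (w (m - 1)) = 0 := by
      have := hwadj (m - 1)
      rw [show m - 1 + 1 = m by omega, hwm] at this
      exact adj_none this.symm
    have hst : ∀ i, 1 ≤ i → i + 1 ≤ m - 1 → _ := fun i h1 h2 =>
      adj_col (hwne i (by omega) (by omega)) (hwne (i + 1) (by omega) (by omega)) (hwadj i)
    obtain ⟨hmr, hJ, hJr⟩ := arithJ (fun i => depth (w i)) hmodd hm3 hJ1 hJm
      (fun i h1 h2 => (hst i h1 h2).2.1) hm2
    have hst' : ∀ i, 1 ≤ i → i + 1 ≤ m - 1 →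
        (colA (w (m - (i + 1))) = colA (w (m - i)) + 1 ∨
          colA (w (m - i)) = colA (w (m - (i + 1))) + 1 ∨
          (colA (w (m - i)) = k ∧ colA (w (m - (i + 1))) = k)) ∧
        (depth (w (m - (i + 1))) = depth (w (m - i)) + 1 ∨
          depth (w (m - i)) = depth (w (m - (i + 1))) + 1 ∨
          (depth (w (m - i)) + 1 = r ∧ depth (w (m - (i + 1))) + 1 = r)) := by
      intro i h1 h2
      have h3 := hst (m - (i + 1)) (by omega) (by omega)
      rw [show m - (i + 1) + 1 = m - i by omega] at h3
      refine ⟨?_, ?_⟩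
      · rcases h3.1 with h | h | h
        · exact Or.inr (Or.inl h)
        · exact Or.inl h
        · exact Or.inr (Or.inr ⟨h.2, h.1⟩)
      · rcases h3.2.1 with h | h | h
        · exact Or.inr (Or.inl h)
        · exact Or.inl h
        · exact Or.inr (Or.inr ⟨h.2, h.1⟩)
    obtain ⟨_, hJ', hJr'⟩ := arithJ (fun i => depth (w (m - i))) hmodd hm3 hJm
      (by show depth (w (m - (m - 1))) = 0
          rw [show m - (m - 1) = 1 by omega]; exact hJ1)
      (fun i h1 h2 => (hst' i h1 h2).2) hm2
    have hrk : r ≤ k := by omega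
    have H1 := arithA hrk hr (fun i => colA (w i)) (fun i => cN (w i))
      (by show cN (w 0) = 1
          rw [hw0]; rfl)
      (fun i h1 h2 => by
        show cN (w i) = _
        rw [cN_eq (hwne i (by omega) (by omega))]
        rw [show depth (w i) = i - 1 from hJ i h1 h2])
      (by show cN (w (r + 1)) = _
          rw [cN_eq (hwne (r + 1) (by omega) (by omega)),
            show depth (w (r + 1)) = r - 1 from hJr])
      (fun i h1 h2 => (hst i h1 (by omega)).1)
    have H2 := arithA hrk hr (fun i => colA (w (m - i))) (fun i => cN (w (m - i)))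
      (by show cN (w (m - 0)) = 1
          rw [Nat.sub_zero, hwm]; rfl)
      (fun i h1 h2 => by
        show cN (w (m - i)) = _
        rw [cN_eq (hwne (m - i) (by omega) (by omega))]
        rw [show depth (w (m - i)) = i - 1 from hJ' i h1 h2])
      (by show cN (w (m - (r + 1))) = _
          rw [cN_eq (hwne (m - (r + 1)) (by omega) (by omega)),
            show depth (w (m - (r + 1))) = r - 1 from hJr'])
      (fun i h1 h2 => (hst' i h1 (by omega)).1)
    have H3 := halves (h := r) (fun i => cN (w i))
      (by show cN (w (2 * r + 1)) = cN (w 0)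
          rw [← hmr, hwm, hw0]) H1
      (by rw [← hmr]
          exact H2)
    intro p p' hp hp' h1 h2
    exact H3 p p' (by omega) (by omega) h1 h2
  · have hne : ∀ i, v i ≠ none := fun i h => hz ⟨i, h⟩
    have hwind := winding (n := 2 * k + 1) (m := m) (by omega)
      (fun i => colZ (v ((i : ℕ) : ZMod m)))
      (fun i _ => by
        have := hv.1.adj (i : ℕ)
        have h2 := (adj_col (hne _) (hne _) this).2.2
        show colZ (v ((i + 1 : ℕ) : ZMod m)) = _ ∨ colZ (v ((i + 1 : ℕ) : ZMod m)) = _
        rw [show ((i + 1 : ℕ) : ZMod m) = (i : ℕ) + 1 by push_cast; ring]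
        exact h2)
      (by show colZ (v ((m : ℕ) : ZMod m)) = colZ (v ((0 : ℕ) : ZMod m))
          rw [ZMod.natCast_self]; simp) hmodd hm1
    obtain ⟨hmk, hdir⟩ := hwind
    subst hmk
    have hkr : k ≤ r := by omega
    -- a starting point such that the columns are `± i`
    obtain ⟨i0, hi0⟩ : ∃ i0 : ZMod (2 * k + 1), ∀ i : ℕ,
        colZ (v (i0 + (i : ℕ))) = i ∨ colZ (v (i0 + (i : ℕ))) = - (i : ZMod (2 * k + 1)) := by
      rcases hdir with hdir | hdir
      · refine ⟨- colZ (v 0), fun i => Or.inl ?_⟩
        have h1 := hdir (- colZ (v 0) + (i : ℕ) : ZMod (2 * k + 1)).val (ZMod.val_lt _).le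
        simp only [ZMod.natCast_zmod_val, Nat.cast_zero] at h1
        rw [h1]; ring
      · refine ⟨colZ (v 0), fun i => Or.inr ?_⟩
        have h1 := hdir (colZ (v 0) + (i : ℕ) : ZMod (2 * k + 1)).val (ZMod.val_lt _).le
        simp only [ZMod.natCast_zmod_val, Nat.cast_zero] at h1
        rw [h1]; ring
    apply reduce (by omega) v cN i0
    set w : ℕ → Option (Fin (2 * k + 1) × Fin r) := fun i => v (i0 + (i : ℕ)) with hw
    have hwadj : ∀ i, (genMycielski (SimpleGraph.cycleGraph (2 * k + 1)) r).Adj (w i) (w (i + 1)) :=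
      fun i => hadj i0 i
    have hwne : ∀ i, w i ≠ none := fun i => hne _
    have hA : ∀ i, i ≤ k + 1 → colA (w i) = if i ≤ k then i else k :=
      fun i hi => colA_of_pos (hwne i) hi hk (hi0 i)
    have hA' : ∀ i, i ≤ k + 1 → colA (w (2 * k + 1 - i)) = if i ≤ k then i else k := by
      intro i hi
      apply colA_of_pos (hwne _) hi hk
      have h1 := hi0 (2 * k + 1 - i)
      have h2 : ((2 * k + 1 - i : ℕ) : ZMod (2 * k + 1)) = - (i : ZMod (2 * k + 1)) := by
        rw [Nat.cast_sub (by omega), ZMod.natCast_self]; ring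
      rw [h2, neg_neg] at h1
      show colZ (v (i0 + ((2 * k + 1 - i : ℕ) : ZMod (2 * k + 1)))) = _ ∨
        colZ (v (i0 + ((2 * k + 1 - i : ℕ) : ZMod (2 * k + 1)))) = _
      rw [h2]
      exact h1.symm
    have hst := fun i => (adj_col (hwne i) (hwne (i + 1)) (hwadj i)).2.1
    have H1 := arithB hkr (fun i => depth (w i)) (fun i => cN (w i))
      (fun i hi => by
        show cN (w i) = _
        rw [cN_eq (hwne i), hA i (by omega), if_pos hi])
      (by show cN (w (k + 1)) = _
          rw [cN_eq (hwne _), hA (k + 1) le_rfl, if_neg (by omega)])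
      (fun i _ => hst i)
    have H2 := arithB hkr (fun i => depth (w (2 * k + 1 - i))) (fun i => cN (w (2 * k + 1 - i)))
      (fun i hi => by
        show cN (w (2 * k + 1 - i)) = _
        rw [cN_eq (hwne _), hA' i (by omega), if_pos hi])
      (by show cN (w (2 * k + 1 - (k + 1))) = _
          rw [cN_eq (hwne _), hA' (k + 1) le_rfl, if_neg (by omega)])
      (fun i hi => by
        have h3 := hst (2 * k + 1 - (i + 1))
        rw [show 2 * k + 1 - (i + 1) + 1 = 2 * k + 1 - i by omega] at h3
        rcases h3 with h | h | h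
        · exact Or.inr (Or.inl h)
        · exact Or.inl h
        · exact Or.inr (Or.inr ⟨h.2, h.1⟩))
    have H3 := halves (h := k) (fun i => cN (w i))
      (by show cN (w (2 * k + 1)) = cN (w 0)
          simp only [hw]
          rw [ZMod.natCast_self, Nat.cast_zero]) H1 H2
    intro p p' hp hp' h1 h2
    exact H3 p p' hp hp' h1 h2

/-- For all `r, k ≥ 1`, the generalized Mycielski graph `M_r(C_{2k+1})` has an orientation in
which every shortest odd cycle is alternating. -/
theorem result (r k : ℕ) (hr : 1 ≤ r) (hk : 1 ≤ k) :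
    ∃ D : Option (Fin (2 * k + 1) × Fin r) → Option (Fin (2 * k + 1) × Fin r) → Prop,
      IsOrientation (genMycielski (SimpleGraph.cycleGraph (2 * k + 1)) r) D ∧
      ∀ (m : ℕ) (v : ZMod m → Option (Fin (2 * k + 1) × Fin r)),
        IsShortestOddCycle (genMycielski (SimpleGraph.cycleGraph (2 * k + 1)) r) m v →
          IsAlternating D v := by
  apply orient _ (fun x => decide (cN x % 2 = 1))
  intro m v hv i j hi hj
  have key : ∀ a b : ℕ, decide (a % 2 = 1) = decide (b % 2 = 1) → a % 2 = b % 2 := by
    intro a b h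
    rw [decide_eq_decide] at h
    omega
  exact mono_unique hk hr hv i j (key _ _ hi) (key _ _ hj)

end Pool.Agent.Results.MP_118fda_co.AlternatingOrientation
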